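import Pool.Agent.R592.Ba.Smz

/-!
# BAF-11: below the bounding number, a small covering number gives a small set not of strong
measure zero
-/

set_option autoImplicit false

namespace Pool.Agent.R746.Ba

open Cardinal Set Pool.Agent.R592.Ba

theorem open_agree {U : Set X} (hU : IsOpen U) {x : X} (hx : x ∈ U) :
    ∃ n : ℕ, ∀ z : X, (∀ i < n, z i = x i) → z ∈ U := by
  obtain ⟨s, ⟨y, n, rfl⟩, hxs, hsU⟩ :=
    (PiNat.isTopologicalBasis_cylinders (fun _ : ℕ => Bool)).exists_subset_of_mem_open hx hU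
  refine ⟨n, fun z hz => hsU ?_⟩
  rw [PiNat.mem_cylinder_iff] at hxs ⊢
  intro i hi
  rw [hz i hi]
  exact hxs i hi

theorem nd_agree {K : Set X} (hK : IsNowhereDense K) (x : X) (p : ℕ) :
    ∃ m, p ≤ m ∧ ∃ z0 : X, (∀ i < p, z0 i = x i) ∧
      ∀ z : X, (∀ i < m, z i = z0 i) → z ∉ K := by
  have h1 : ¬ (PiNat.cylinder x p ⊆ closure K) := by
    intro h
    have h2 : PiNat.cylinder x p ⊆ interior (closure K) :=
      interior_maximal h (PiNat.isOpen_cylinder _ x p)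
    have h3 : interior (closure K) = ∅ := hK
    rw [h3] at h2
    exact h2 (PiNat.self_mem_cylinder x p)
  obtain ⟨z0, hz0, hz1⟩ := Set.not_subset.1 h1
  obtain ⟨m, hm⟩ := open_agree (isClosed_closure (s := K)).isOpen_compl hz1
  refine ⟨max p m, le_max_left _ _, z0, PiNat.mem_cylinder_iff.1 hz0, fun z hz hzK => ?_⟩
  exact hm z (fun i hi => hz i (lt_of_lt_of_le hi (le_max_right _ _))) (subset_closure hzK)

theorem task {K : Set X} (hK : IsNowhereDense K) (x τ : X) (n p : ℕ) (hnp : n ≤ p) :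
    ∃ m, p ≤ m ∧ ∃ τ' : X, (∀ k, n ≤ k → k < p → τ' k = τ k) ∧
      ∀ z : X, (∀ k < n, z k = x k) → (∀ k, n ≤ k → k < m → z k = τ' k) → z ∉ K := by
  obtain ⟨m, hm, z0, h0, h1⟩ := nd_agree hK (fun k => if k < n then x k else τ k) p
  refine ⟨m, hm, z0, ?_, ?_⟩
  · intro k hk hkp
    rw [h0 k hkp, if_neg (by omega)]
  · intro z hz1 hz2
    apply h1
    intro k hk
    by_cases hkn : k < n
    · rw [hz1 k hkn, h0 k (by omega), if_pos hkn]
    · exact hz2 k (by omega) hk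

theorem tasks {f : ℕ → Set X} (hf : ∀ i, IsNowhereDense (f i)) (n : ℕ)
    (T : Finset ((Fin n → Bool) × Fin (n + 1))) :
    ∃ m, n ≤ m ∧ ∃ τ : X, ∀ t ∈ T, ∀ z : X, (∀ k : Fin n, z k = t.1 k) →
      (∀ k, n ≤ k → k < m → z k = τ k) → z ∉ f t.2 := by
  classical
  induction T using Finset.induction_on with
  | empty => exact ⟨n, le_rfl, fun _ => false, by simp⟩
  | insert t T ht ih =>
    obtain ⟨m, hm, τ, hτ⟩ := ih
    obtain ⟨m', hm', τ', h1, h2⟩ := task (hf t.2)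
      (fun k => if h : k < n then t.1 ⟨k, h⟩ else false) τ n m hm
    refine ⟨m', hm.trans hm', τ', ?_⟩
    intro u hu z hz1 hz2
    rcases Finset.mem_insert.1 hu with rfl | hu
    · refine h2 z ?_ hz2
      intro k hk
      rw [dif_pos hk]
      exact hz1 ⟨k, hk⟩
    · refine hτ u hu z hz1 fun k hk1 hk2 => ?_
      rw [← h1 k hk1 hk2]
      exact hz2 k hk1 (by omega)

theorem catch_all {f : ℕ → Set X} (hf : ∀ i, IsNowhereDense (f i)) (n : ℕ) :
    ∃ m, ∃ τ : X, ∀ z : X, (∀ k, n ≤ k → k < m → z k = τ k) → ∀ i ≤ n, z ∉ f i := by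
  obtain ⟨m, hm, τ, h⟩ := tasks hf n Finset.univ
  refine ⟨m, τ, fun z hz i hi => ?_⟩
  exact h (fun k => z k, ⟨i, by omega⟩) (Finset.mem_univ _) z (fun k => rfl) hz

theorem meagre_seq {N : Set X} (hN : IsMeagre N) :
    ∃ f : ℕ → Set X, (∀ i, IsNowhereDense (f i)) ∧ N ⊆ ⋃ i, f i := by
  obtain ⟨S, hS, hc, hNS⟩ := isMeagre_iff_countable_union_isNowhereDense.1 hN
  have hne : (insert ∅ S : Set (Set X)).Nonempty := Set.insert_nonempty _ _
  obtain ⟨f, hf⟩ := (hc.insert ∅).exists_eq_range hne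
  refine ⟨f, fun i => ?_, ?_⟩
  · have h : f i ∈ (insert ∅ S : Set (Set X)) := by rw [hf]; exact mem_range_self i
    rcases h with h | h
    · rw [h]; exact isNowhereDense_empty
    · exact hS _ h
  · intro z hz
    obtain ⟨t, ht, hzt⟩ := hNS hz
    have h : t ∈ range f := by rw [← hf]; exact mem_insert_of_mem _ ht
    obtain ⟨i, rfl⟩ := h
    exact mem_iUnion.2 ⟨i, hzt⟩

theorem single_meagre (x : X) : IsMeagre ({x} : Set X) := by
  have h : IsNowhereDense ({x} : Set X) := by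
    unfold IsNowhereDense
    rw [closure_singleton]
    by_contra hne
    obtain ⟨z, hz⟩ := Set.nonempty_iff_ne_empty.2 hne
    have hzx : z = x := mem_singleton_iff.1 (interior_subset hz)
    subst hzx
    obtain ⟨n, hn⟩ := open_agree isOpen_interior hz
    have h1 : Function.update z n (!z n) ∈ ({z} : Set X) :=
      interior_subset (hn (Function.update z n (!z n)) (fun i hi => by simp [hi.ne]))
    have h2 := congrFun (mem_singleton_iff.1 h1) n
    simp at h2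
  exact isMeagre_iff_countable_union_isNowhereDense.2
    ⟨{{x}}, by simpa using h, countable_singleton _, by simp⟩

theorem nonSmz : NonSmz := by
  intro κ hκ hcov
  have hne : {κ : Cardinal.{0} | ∃ 𝒩 : Set (Set X), #𝒩 = κ ∧ (∀ N ∈ 𝒩, IsMeagre N) ∧
      ⋃₀ 𝒩 = Set.univ}.Nonempty := by
    refine ⟨_, range (fun x : X => ({x} : Set X)), rfl, ?_, ?_⟩
    · rintro _ ⟨x, rfl⟩
      exact single_meagre x
    · exact eq_univ_of_forall fun x => ⟨{x}, ⟨x, rfl⟩, rfl⟩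
  obtain ⟨𝒩, h𝒩, hme, hun⟩ := csInf_mem hne
  change #𝒩 = covM at h𝒩
  have hA : ∀ N : 𝒩, ∃ f : ℕ → Set X, (∀ i, IsNowhereDense (f i)) ∧ (N : Set X) ⊆ ⋃ i, f i :=
    fun N => meagre_seq (hme N N.2)
  choose f hf hNf using hA
  have hB : ∀ (N : 𝒩) (n : ℕ), ∃ m, ∃ τ : X,
      ∀ z : X, (∀ k, n ≤ k → k < m → z k = τ k) → ∀ i ≤ n, z ∉ f N i :=
    fun N n => catch_all (hf N) n
  choose m τ hmτ using hB
  have hlt : #(range m) < bnum := (mk_range_le.trans (h𝒩.le.trans hcov)).trans_lt hκ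
  have hnb := notMem_of_lt_csInf hlt (OrderBot.bddBelow _)
  obtain ⟨g, hg⟩ : ∃ g, ∀ f ∈ range m, LeStar f g := by
    by_contra hcon
    exact hnb ⟨range m, rfl, hcon⟩
  obtain ⟨I, hI0, hIs, hmg⟩ : ∃ I : ℕ → ℕ, I 0 = 0 ∧ (∀ n, I n + 1 ≤ I (n + 1)) ∧
      ∀ n, g (I n) ≤ I (n + 1) := by
    refine ⟨fun n => (fun n => max (n + 1) (g n))^[n] 0, rfl, fun n => ?_, fun n => ?_⟩
    · simp only [Function.iterate_succ_apply']
      exact le_max_left _ _
    · simp only [Function.iterate_succ_apply']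
      exact le_max_right _ _
  have hmono : StrictMono I := strictMono_nat_of_lt_succ fun n => hIs n
  have hIge : ∀ n, n ≤ I n := fun n => hmono.le_apply
  have hb : ∀ k, ∃ n, I n ≤ k ∧ k < I (n + 1) := by
    intro k
    have hex : ∃ n, k < I n := ⟨k + 1, lt_of_lt_of_le (Nat.lt_succ_self k) (hIge _)⟩
    classical
    have h1 := Nat.find_spec hex
    have h2 : Nat.find hex ≠ 0 := by
      intro h0
      rw [h0, hI0] at h1
      exact absurd h1 (Nat.not_lt_zero _)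
    obtain ⟨n, hn⟩ := Nat.exists_eq_succ_of_ne_zero h2
    refine ⟨n, ?_, by rw [hn] at h1; exact h1⟩
    exact not_lt.1 (Nat.find_min hex (by omega))
  choose b hb1 hb2 using hb
  have hbu : ∀ n k, I n ≤ k → k < I (n + 1) → b k = n := by
    intro n k h1 h2
    have a1 : b k < n + 1 := hmono.lt_iff_lt.1 ((hb1 k).trans_lt h2)
    have a2 : n < b k + 1 := hmono.lt_iff_lt.1 (h1.trans_lt (hb2 k))
    omega
  obtain ⟨y, hyd⟩ : ∃ y : 𝒩 → X, ∀ N k, y N k = τ N (I (b k)) k :=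
    ⟨fun N k => τ N (I (b k)) k, fun _ _ => rfl⟩
  have hy : ∀ N : 𝒩, ∃ n0, ∀ n ≥ n0, ∀ z : X,
      (∀ k, I n ≤ k → k < I (n + 1) → z k = y N k) → ∀ j ≤ I n, z ∉ f N j := by
    intro N
    obtain ⟨n0, hn0⟩ := Filter.eventually_atTop.1 (hg (m N) ⟨N, rfl⟩)
    refine ⟨n0, fun n hn z hz => ?_⟩
    refine hmτ N (I n) z fun k hk1 hk2 => ?_
    have h3 : m N (I n) ≤ I (n + 1) :=
      (hn0 (I n) (le_trans hn (hIge n))).trans (hmg n)
    have hk3 : k < I (n + 1) := lt_of_lt_of_le hk2 h3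
    rw [hz k hk1 hk3, hyd, hbu n k hk1 hk3]
  refine ⟨range y, mk_range_le.trans (h𝒩.le.trans hcov), fun hsmz => ?_⟩
  choose σ hσ1 hσ2 using fun j : ℕ => hsmz (fun l => I (Nat.pair j l + 1))
  obtain ⟨x, hxd⟩ : ∃ x : X, ∀ k,
      x k = (σ (Nat.unpair (b k)).1 (Nat.unpair (b k)).2).getD k false :=
    ⟨fun k => (σ (Nat.unpair (b k)).1 (Nat.unpair (b k)).2).getD k false, fun _ => rfl⟩
  have hx : x ∈ ⋃₀ 𝒩 := by rw [hun]; trivial
  obtain ⟨N, hN, hxN⟩ := hx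
  obtain ⟨i0, hi0⟩ := mem_iUnion.1 (hNf ⟨N, hN⟩ hxN)
  obtain ⟨n0, hn0⟩ := hy ⟨N, hN⟩
  obtain ⟨l, hl⟩ := mem_iUnion.1 (hσ2 (max n0 i0) (mem_range_self (f := y) ⟨N, hN⟩))
  have hpair : max n0 i0 ≤ Nat.pair (max n0 i0) l := Nat.left_le_pair _ _
  refine hn0 (Nat.pair (max n0 i0) l) ((le_max_left _ _).trans hpair) x ?_ i0
    (((le_max_right _ _).trans hpair).trans (hIge _)) hi0
  intro k hk1 hk2
  have hbk := hbu _ k hk1 hk2
  have hlen : k < (σ (max n0 i0) l).length := lt_of_lt_of_le hk2 (hσ1 (max n0 i0) l)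
  rw [hxd, hbk, Nat.unpair_pair]
  rw [List.getD_eq_getElem _ _ hlen]
  exact (hl k hlen).symm

end Pool.Agent.R746.Ba
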